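import Pool.Agent.TH180.RT.Mom

/-!
# Elliptic curves over `k(t)` of large analytic rank are superexponentially rare

Let `k` be a finite field with `q` elements, of characteristic at least `5`. We consider all elliptic
curves over `F = k(t)` of height `q ^ d`, `d ≥ 1`, given by their minimal equations
`y ^ 2 = x ^ 3 + A(t) x + B(t)`.
-/

set_option autoImplicit false
set_option linter.all false
set_option maxHeartbeats 1000000

open Polynomial

namespace Pool.Agent.Results.MP_a3f657_nt.CorankTails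

section defs

/-- The number of solutions of `y ^ 2 = x ^ 3 + a x + b` in a ring. -/
noncomputable def affinePoints (R : Type) [CommRing R] (a b : R) : ℕ :=
  Nat.card {z : R × R // z.2 ^ 2 = z.1 ^ 3 + a * z.1 + b}

/-- `α ^ j + β ^ j`, where `α + β = a` and `α β = c`. -/
def powerTrace (a c : ℤ) (j : ℕ) : ℤ :=
  ((!![a, -c; 1, 0] : Matrix (Fin 2) (Fin 2) ℤ) ^ j).trace

variable {k : Type} [Field k]

open Classical in
/-- The number `α ^ j + β ^ j` at the place of `k(t)` given by the prime `P`: the Euler factor of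
`y ^ 2 = x ^ 3 + A x + B` is `(1 - α T) (1 - β T) = 1 - a T + c T ^ 2` in `T = q_P ^ (-s)`, with
`a = q_P - (number of affine points modulo P)`, `q_P = q ^ (deg P)`, and `c = q_P` for good reduction,
`c = 0` for bad reduction. -/
noncomputable def primeTerm (A B P : k[X]) (j : ℕ) : ℤ :=
  powerTrace
    ((Nat.card k : ℤ) ^ P.natDegree -
      affinePoints (AdjoinRoot P) (AdjoinRoot.mk P A) (AdjoinRoot.mk P B))
    (if P ∣ 4 * A ^ 3 + 27 * B ^ 2 then 0 else (Nat.card k : ℤ) ^ P.natDegree) j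

open Classical in
/-- The same at the infinite place, where the reduction is `y ^ 2 = x ^ 3 + a x + b`. -/
noncomputable def infinityTerm (a b : k) (j : ℕ) : ℤ :=
  powerTrace ((Nat.card k : ℤ) - affinePoints k a b)
    (if 4 * a ^ 3 + 27 * b ^ 2 = 0 then 0 else (Nat.card k : ℤ)) j

open Classical in
/-- The number `S_m` in `L(T, E) = exp (∑ S_m T ^ m / m)`: the sum over the places `v` with
`deg v ∣ m` of `deg v (α_v ^ (m / deg v) + β_v ^ (m / deg v))`, for the minimal equation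
`y ^ 2 = x ^ 3 + A x + B` of height `d`. -/
noncomputable def logCoeff (d : ℕ) (A B : k[X]) (m : ℕ) : ℤ :=
  infinityTerm (A.coeff (4 * d)) (B.coeff (6 * d)) m +
    ∑ᶠ P : k[X], if P.Monic ∧ Irreducible P ∧ P.natDegree ∣ m then
      (P.natDegree : ℤ) * primeTerm A B P (m / P.natDegree) else 0

/-- `y ^ 2 = x ^ 3 + A x + B` is a minimal equation of an elliptic curve over `k(t)` of height `q ^ d`:
`deg A ≤ 4 d` and `deg B ≤ 6 d` (and this fails for `d - 1`), the discriminant is not zero, and there is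
no prime `P` with `P ^ 4 ∣ A` and `P ^ 6 ∣ B`. -/
def IsMinimal (d : ℕ) (A B : k[X]) : Prop :=
  A.natDegree ≤ 4 * d ∧ B.natDegree ≤ 6 * d ∧
    (0 < d → ¬ (A.natDegree + 4 ≤ 4 * d ∧ B.natDegree + 6 ≤ 6 * d)) ∧
    4 * A ^ 3 + 27 * B ^ 2 ≠ 0 ∧ ∀ P : k[X], Irreducible P → ¬ (P ^ 4 ∣ A ∧ P ^ 6 ∣ B)

/-- `L(T, E) = ∏ (1 - q β_i T)` has degree `N ≤ 12 d` and all `β_i` have absolute value one. -/
def IsSpectrum (d : ℕ) (A B : k[X]) {N : ℕ} (β : Fin N → ℂ) : Prop :=
  N ≤ 12 * d ∧ (∀ i, ‖β i‖ = 1) ∧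
    ∀ m : ℕ, 0 < m → (logCoeff d A B m : ℂ) = -((Nat.card k : ℂ) ^ m * ∑ i, β i ^ m)

open Classical in
/-- `L(T, E)` satisfies the Weil conjectures and vanishes to order at least `R` at `T = 1 / q`. -/
def OrderAtLeast (d : ℕ) (A B : k[X]) (R : ℕ) : Prop :=
  ∃ (N : ℕ) (β : Fin N → ℂ), IsSpectrum d A B β ∧
    R ≤ (Finset.univ.filter fun i => β i = 1).card

open Classical in
/-- The rank of the group of the `k(t)`-rational points of `y ^ 2 = x ^ 3 + A x + B`. -/
noncomputable def rank (A B : k[X]) : ℕ :=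
  Module.finrank ℤ (WeierstrassCurve.mk 0 0 0 (algebraMap k[X] (RatFunc k) A)
    (algebraMap k[X] (RatFunc k) B) : WeierstrassCurve (RatFunc k)).toAffine.Point

/-- The proportion of the curves of height `q ^ d` with the property `p` is at most `δ`. -/
def Proportion (d : ℕ) (p : k[X] → k[X] → Prop) (δ : ℝ) : Prop :=
  ({x : k[X] × k[X] | IsMinimal d x.1 x.2 ∧ p x.1 x.2}.ncard : ℝ) ≤
    δ * {x : k[X] × k[X] | IsMinimal d x.1 x.2}.ncard

/-- The proportion of the curves of height `q ^ d` with `r ≥ R` is at most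
`2 (44 / R) ^ ⌊R / 18⌋` for all `R ≥ 1`, and the average of `s ^ r` is at most `C(s)` for all
`s ≥ 0`. -/
def Tails (d : ℕ) (r : k[X] → k[X] → ℕ) (C : ℝ → ℝ) : Prop :=
  (∀ R : ℕ, 0 < R → Proportion d (fun A B => R ≤ r A B) (2 * (44 / (R : ℝ)) ^ (R / 18))) ∧
  ∀ s : ℝ, 0 ≤ s → ∑ᶠ x ∈ {x : k[X] × k[X] | IsMinimal d x.1 x.2}, s ^ r x.1 x.2 ≤
    C s * {x : k[X] × k[X] | IsMinimal d x.1 x.2}.ncard

/-- The function `r` is at most the order of vanishing at `T = 1 / q`. -/
def AtMostOrder (d : ℕ) (r : k[X] → k[X] → ℕ) : Prop :=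
  ∀ A B : k[X], IsMinimal d A B → OrderAtLeast d A B (r A B)

end defs

section proof

open Pool.Agent.TH180.RT

variable {k : Type} [Field k]

theorem primeTerm_eq (A B P : k[X]) (j : ℕ) : primeTerm A B P j = locP A B P j := rfl

theorem infinityTerm_eq (a b : k) (j : ℕ) : infinityTerm a b j = locI a b j := rfl

theorem logCoeff_eq (d : ℕ) (A B : k[X]) (m : ℕ) : logCoeff d A B m = psum d A B m := rfl

theorem min_iff (d : ℕ) (A B : k[X]) : IsMinimal d A B ↔ IsMin d A B := Iff.rfl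

theorem big_iff (d R : ℕ) (A B : k[X]) : OrderAtLeast d A B R ↔ Big d R A B := by
  unfold OrderAtLeast Big IsSpectrum
  constructor
  · rintro ⟨N, β, ⟨h1, h2, h3⟩, h4⟩
    exact ⟨N, β, h1, h2, h3, h4⟩
  · rintro ⟨N, β, h1, h2, h3, h4⟩
    exact ⟨N, β, ⟨h1, h2, h3⟩, h4⟩

theorem mono {d R R' : ℕ} {A B : k[X]} (h : OrderAtLeast d A B R') (hR : R ≤ R') :
    OrderAtLeast d A B R := by
  obtain ⟨N, β, h1, h2⟩ := h
  exact ⟨N, β, h1, hR.trans h2⟩

open Classical in
theorem prop_order [Finite k] (h6 : (6 : k) ≠ 0) {d : ℕ} (hd : 0 < d) {R : ℕ} (hR : 0 < R) :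
    Proportion d (fun A B : k[X] => OrderAtLeast d A B R) (2 * (44 / (R : ℝ)) ^ (R / 18)) := by
  let _ : Fintype k := Fintype.ofFinite k
  have h := tail_min h6 hd hR
  have e1 := ncard_eq (k := k) d (fun A B => IsMin d A B ∧ Big d R A B)
    (fun A B h => ⟨h.1.1, h.1.2.1⟩)
  have e2 := ncard_eq (k := k) d (fun A B => IsMin d A B) (fun A B h => ⟨h.1, h.2.1⟩)
  have h' : ({x : k[X] × k[X] | IsMin d x.1 x.2 ∧ Big d R x.1 x.2}.ncard : ℝ) ≤
      2 * tl 18 R * {x : k[X] × k[X] | IsMin d x.1 x.2}.ncard := by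
    rw [e1, e2]
    convert h
  have e3 : {x : k[X] × k[X] | IsMinimal d x.1 x.2 ∧ OrderAtLeast d x.1 x.2 R} =
      {x : k[X] × k[X] | IsMin d x.1 x.2 ∧ Big d R x.1 x.2} := by
    ext x
    exact and_congr Iff.rfl (big_iff _ _ _ _)
  unfold Proportion
  rw [e3]
  exact h'

theorem fin_min [Finite k] (d : ℕ) : {x : k[X] × k[X] | IsMinimal d x.1 x.2}.Finite := by
  classical
  let _ : Fintype k := Fintype.ofFinite k
  refine Set.Finite.subset (Set.finite_range
    fun ω : Om k (4 * d + 1) (6 * d + 1) => (ω.1.1, ω.2.1)) ?_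
  intro x hx
  exact ⟨(⟨x.1, mem_of_natDegree hx.1⟩, ⟨x.2, mem_of_natDegree hx.2.1⟩), rfl⟩

theorem prop_mono [Finite k] {d : ℕ} {p p' : k[X] → k[X] → Prop} {δ : ℝ} (h : Proportion d p δ)
    (hp : ∀ A B : k[X], IsMinimal d A B → p' A B → p A B) : Proportion d p' δ := by
  unfold Proportion at h ⊢
  refine le_trans ?_ h
  have h1 : {x : k[X] × k[X] | IsMinimal d x.1 x.2 ∧ p' x.1 x.2} ⊆
      {x : k[X] × k[X] | IsMinimal d x.1 x.2 ∧ p x.1 x.2} :=
    fun x hx => ⟨hx.1, hp _ _ hx.1 hx.2⟩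
  exact_mod_cast Set.ncard_le_ncard h1 ((fin_min d).subset fun x hx => hx.1)

theorem tails_of [Finite k] (h6 : (6 : k) ≠ 0) {d : ℕ} (hd : 0 < d) {r : k[X] → k[X] → ℕ}
    (hr : AtMostOrder d r) : Tails d r (cst 18 2) := by
  classical
  have h1 : ∀ R : ℕ, 0 < R →
      Proportion d (fun A B => R ≤ r A B) (2 * (44 / (R : ℝ)) ^ (R / 18)) := by
    intro R hR
    exact prop_mono (prop_order h6 hd hR) fun A B hm h => mono (hr A B hm) h
  refine ⟨h1, fun s hs => ?_⟩
  rw [finsum_mem_eq_finite_toFinset_sum _ (fin_min d), Set.ncard_eq_toFinset_card _ (fin_min d)]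
  refine exp_moment (fin_min d).toFinset (fun x : k[X] × k[X] => r x.1 x.2) (by norm_num)
    (by norm_num) ?_ hs
  intro R hR
  have h2 := h1 R hR
  unfold Proportion at h2
  rw [Set.ncard_eq_toFinset_card _ (fin_min d)] at h2
  refine le_trans (le_of_eq ?_) h2
  congr 1
  rw [← Set.ncard_coe_finset]
  congr 1
  ext x
  simp

end proof

/-- **Main theorem.** Let `k` be a finite field with `q` elements, of characteristic at least `5`, and
`d ≥ 1`. Among the minimal equations of height `q ^ d` over `k(t)`, the proportion of those whose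
`L`-function (satisfying the Weil conjectures) vanishes to order at least `R` at `T = 1 / q` is at
most `2 (44 / R) ^ ⌊R / 18⌋`. If `r` is any function bounded by the order, for example the rank, the
same holds for the curves with `r ≥ R`, and the average of `s ^ r` is at most `C(s)`, for all `s`,
with `C(s)` independent of `k` and `d`. -/
theorem result : ∃ C : ℝ → ℝ, ∀ (k : Type) [Field k] [Finite k], (6 : k) ≠ 0 → ∀ d : ℕ, 0 < d →
    (∀ R : ℕ, 0 < R →
      Proportion d (fun A B : k[X] => OrderAtLeast d A B R) (2 * (44 / (R : ℝ)) ^ (R / 18))) ∧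
    (∀ r : k[X] → k[X] → ℕ, AtMostOrder d r → Tails d r C) ∧
    (AtMostOrder d (rank (k := k)) → Tails d (rank (k := k)) C) := by
  refine ⟨Pool.Agent.TH180.RT.cst 18 2, fun k _ _ h6 d hd => ⟨fun R hR => prop_order h6 hd hR,
    fun r hr => tails_of h6 hd hr, fun hr => tails_of h6 hd hr⟩⟩

end Pool.Agent.Results.MP_a3f657_nt.CorankTails
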