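import Mathlib
import Pool.Agent.TH841.LS.Main5
import Pool.Agent.TH841.LS.Tkx
import Pool.Agent.TH841.LS.Cntx

/-!
# Small and large Tate-Shafarevich groups in one-parameter families of elliptic curves

`E_t : y² = x (x - D(t) u₀(t)) (x - D(t) u₁(t))` and the 2-isogenous curve
`W_t = E_t / ⟨(0, 0)⟩ : y² = x³ + 2 (A + B) x² + (A - B)² x`, `A = D(t) u₀(t)`, `B = D(t) u₁(t)`.
Here `u₀`, `u₁` and `u₂ = u₀ - u₁` are polynomials with integer coefficients, `u_k` being a constant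
times a product of `n_k` irreducible polynomials, and `D` is any nonzero polynomial prime to
`u₀ u₁ u₂`, `D = c w² ∏ g_i` with `m` different irreducible `g_i`. Under balance conditions for the
`n_k`, for almost all `t` (in all short intervals) the rank and the 2-primary part of the
Tate-Shafarevich group of `E_t` are bounded, and the Tate-Shafarevich group of `W_t` contains
`(ℤ / 2) ^ k` with `k ≥ (κ - δ) log log |t|`. The constant `κ` is given explicitly; for instance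
`κ = 1 / 2` for the twists of a fixed curve with `A B` not a square by the values of an irreducible
polynomial, and `κ = 3 / 2` for `n = (1, 1, 1)`, `D` constant.
-/

set_option autoImplicit false

namespace Pool.Agent.Results.MP_a3f657_nt.LargeShaInPencils

open Finset Polynomial

open Pool.Agent.TH841.SH.D (Sha ShaTor rk)

/-- the curve `y² = x (x - A) (x - B)` over `ℚ` -/
def E (A B : ℤ) : WeierstrassCurve ℚ := ⟨0, -((A : ℚ) + B), 0, (A : ℚ) * B, 0⟩

/-- the curve `y² = x³ + 2 (A + B) x² + (A - B)² x` over `ℚ`, the quotient of `E A B` by the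
subgroup generated by the point `(0, 0)` -/
def W (A B : ℤ) : WeierstrassCurve ℚ := ⟨0, 2 * ((A : ℚ) + B), 0, ((A : ℚ) - B) ^ 2, 0⟩

/-- `u_k = a_k ∏ f_{k,i}` -/
noncomputable def u {n : Fin 3 → ℕ} (a : Fin 3 → ℤ) (f : ∀ k : Fin 3, Fin (n k) → ℤ[X])
    (k : Fin 3) : ℤ[X] := C (a k) * ∏ i, f k i

/-- `c ∏ g_i`, the squarefree part of `D` -/
noncomputable def D₁ {m : ℕ} (c : ℤ) (g : Fin m → ℤ[X]) : ℤ[X] := C c * ∏ i, g i

/-- `v` is a square modulo `f` in `ℚ[t]` -/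
def SqMod (f v : ℤ[X]) : Prop := ∃ q : ℚ[X], f.map (Int.castRingHom ℚ) ∣
  (q ^ 2 - v.map (Int.castRingHom ℚ))

/-- `- D₁ u₁`, `- D₁ u₀`, `D₁ u₀` -/
noncomputable def v {n : Fin 3 → ℕ} {m : ℕ} (a : Fin 3 → ℤ) (f : ∀ k : Fin 3, Fin (n k) → ℤ[X])
    (c : ℤ) (g : Fin m → ℤ[X]) : Fin 3 → ℤ[X] :=
  ![-(D₁ c g * u a f 1), -(D₁ c g * u a f 0), D₁ c g * u a f 0]

open Classical in
/-- the constant `κ = n₀ + n₁ - (n₂ + s) / 2 + r / 2`, where `s` is the number of the factors of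
`u₂` modulo which `D₁ u₀` is a square, and `r` the number of the `g_i` modulo which `u₀ u₁` is not
a square -/
noncomputable def κ {n : Fin 3 → ℕ} {m : ℕ} (a : Fin 3 → ℤ) (f : ∀ k : Fin 3, Fin (n k) → ℤ[X])
    (c : ℤ) (g : Fin m → ℤ[X]) : ℝ :=
  (n 0 : ℝ) + n 1 -
    ((n 2 : ℝ) + (univ.filter (fun i => SqMod (f 2 i) (D₁ c g * u a f 0))).card) / 2 +
    ((univ.filter (fun i => ¬ SqMod (g i) (u a f 0 * u a f 1))).card : ℝ) / 2

open Classical in
/-- the balance condition: either `2 n_k < n₀ + n₁ + n₂` for all `k`, or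
`2 n_k + s_k ≤ n₀ + n₁ + n₂` for all `k`, where `s_k` is the number of the factors `f_{k,i}` modulo
which `v_k` is a square -/
def Balanced {n : Fin 3 → ℕ} {m : ℕ} (a : Fin 3 → ℤ) (f : ∀ k : Fin 3, Fin (n k) → ℤ[X])
    (c : ℤ) (g : Fin m → ℤ[X]) : Prop :=
  (∀ k, 2 * n k < n 0 + n 1 + n 2) ∨
    ∀ k, 2 * n k + (univ.filter (fun i => SqMod (f k i) (v a f c g k))).card ≤ n 0 + n 1 + n 2

open Classical in
/-- **Theorem.** Let `u_k = a_k ∏_{i < n_k} f_{k,i}`, `k = 0, 1, 2`, with `u₀ - u₁ = u₂`, and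
`D = c w² ∏_{i < m} g_i`, where `a_k`, `c`, `w` are nonzero and the `n₀ + n₁ + n₂ + m` polynomials
`f_{k,i}`, `g_i` with integer coefficients are irreducible of positive degree and pairwise
non-associated; assume the balance condition. For all `δ, ε > 0` and `L` there are `R` and `M₀` such
that for `M ≥ M₀` and `|N| ≤ M ^ L` all the integers `N < t ≤ N + M` with at most `ε M` exceptions
have the following property: `A = D(t) u₀(t)`, `B = D(t) u₁(t)` and `A - B` are nonzero; all the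
groups `Ш(E)[2 ^ j]` of `E : y² = x (x - A) (x - B)` are finite and
`2 ^ rank(E) * #Ш(E)[2 ^ j] ^ (1 / j) ≤ 2 ^ R` for all `j ≥ 1`; and the Tate-Shafarevich group of
the 2-isogenous curve `W : y² = x³ + 2 (A + B) x² + (A - B)² x` has a subgroup `(ℤ / 2) ^ k` with
`k ≥ (κ - δ) log log M`. -/
theorem result (n : Fin 3 → ℕ) (m : ℕ) (a : Fin 3 → ℤ) (f : ∀ k : Fin 3, Fin (n k) → ℤ[X])
    (c : ℤ) (g : Fin m → ℤ[X]) (w : ℤ[X]) (ha : ∀ k, a k ≠ 0) (hc : c ≠ 0) (hw : w ≠ 0)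
    (hf : ∀ k i, Irreducible (f k i) ∧ 0 < (f k i).natDegree)
    (hg : ∀ i, Irreducible (g i) ∧ 0 < (g i).natDegree)
    (hff : ∀ k i l j, (⟨k, i⟩ : Σ k : Fin 3, Fin (n k)) ≠ ⟨l, j⟩ → ¬ Associated (f k i) (f l j))
    (hgg : ∀ i j, i ≠ j → ¬ Associated (g i) (g j)) (hfg : ∀ k i j, ¬ Associated (f k i) (g j))
    (hu : u a f 0 - u a f 1 = u a f 2) (hb : Balanced a f c g)
    (δ ε : ℝ) (L : ℕ) (hδ : 0 < δ) (hε : 0 < ε) :
    ∃ R M₀ : ℕ, ∀ (N : ℤ) (M : ℕ), M₀ ≤ M → |N| ≤ (M : ℤ) ^ L →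
      (((Ioc N (N + (M : ℤ))).filter (fun t => ¬ ∀ A B : ℤ,
        A = (D₁ c g * w ^ 2 * u a f 0).eval t → B = (D₁ c g * w ^ 2 * u a f 1).eval t →
        A ≠ 0 ∧ B ≠ 0 ∧ A ≠ B ∧ (∀ j : ℕ, Finite (ShaTor (E A B) (2 ^ j))) ∧
        (∀ j : ℕ, 1 ≤ j → (2 : ℝ) ^ rk (E A B) *
          (Nat.card (ShaTor (E A B) (2 ^ j)) : ℝ) ^ ((1 : ℝ) / j) ≤ 2 ^ R) ∧
        ∃ k : ℕ, (κ a f c g - δ) * Real.log (Real.log M) ≤ k ∧
          ∃ φ : (Fin k → ZMod 2) →+ Sha (W A B), Function.Injective φ)).card : ℝ) ≤ ε * M := by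
  have hirr : Pool.Agent.TH841.PT.Irr (Pool.Agent.TH841.TR.allf g f) := by
    refine ⟨?_, ?_, ?_⟩
    · rintro (x | i)
      · exact (hf x.1 x.2).1
      · exact (hg i).1
    · rintro (x | i)
      · exact (hf x.1 x.2).2
      · exact (hg i).2
    · rintro (x | i) (y | j) hxy
      · exact hff x.1 x.2 y.1 y.2 (fun h => hxy (congrArg Sum.inl h))
      · exact hfg x.1 x.2 j
      · exact fun h => hfg y.1 y.2 i h.symm
      · exact hgg i j (fun h => hxy (congrArg Sum.inr h))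
  have hbal : (∀ k, 2 * n k < n 0 + n 1 + n 2) ∨
      Pool.Agent.TH841.TR.Bal (Pool.Agent.TH841.LS.DG c g) a f := by
    rcases hb with h | h
    · exact Or.inl h
    · refine Or.inr (Pool.Agent.TH841.TR.bal_of (v := v a f c g) rfl rfl rfl fun k => ?_)
      exact h k
  obtain ⟨R, M₀, h⟩ := Pool.Agent.TH841.LS.large5
    (Pool.Agent.TH841.LS.CNTXf.cntx_of Pool.Agent.TH841.LS.TKXf.tkx)
    Pool.Agent.TH841.PM.tavz Pool.Agent.TH841.TR.tav3x a f c g w ha hc hw hirr hu hbal δ ε L hδ hε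
  exact ⟨R + 1, M₀, h⟩

end Pool.Agent.Results.MP_a3f657_nt.LargeShaInPencils
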