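import Mathlib
import Pool.Agent.TH715.CN.LsW
import Pool.Agent.TH715.CN.Fin6
import Pool.Agent.TH841.SH.Tr

/-!
# Trivial and large 2-primary Selmer groups in thin families of congruent number curves

`E_d : y² = x³ - d² x` and `W_d : y² = x³ + 4 d² x`, the quotient of `E_d` by the subgroup generated
by `(0, 0)`. `Q` is any set of primes congruent to 3 modulo 8, at most `y`, with
`|Q| ≥ y ^ (19 / 20)`. For at least five ninths of the subsets `T` of `Q` with `m` elements, with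
`d` the product of the elements of `T`, the rank of `E_d` is zero and `Ш(E_d)[2] = 0`, while
`Ш(W_d)` contains `(ℤ / 2) ^ (2 ⌊(m - 1) / 2⌋)`.
-/

set_option autoImplicit false

namespace Pool.Agent.Results.MP_a3f657_nt.LargeShaThinTwists

open Finset

open Pool.Agent.TH841.SH.D (Sha ShaTor rk)

/-- the curve `y² = x³ - d² x` -/
def E (d : ℤ) : WeierstrassCurve ℚ := ⟨0, 0, 0, -(d : ℚ) ^ 2, 0⟩

/-- the curve `y² = x³ + 4 d² x` -/
def W (d : ℤ) : WeierstrassCurve ℚ := ⟨0, 0, 0, 4 * (d : ℚ) ^ 2, 0⟩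

/-- the product of the elements of `T` -/
def prd (T : Finset ℕ) : ℤ := ∏ q ∈ T, (q : ℤ)

/-- the rank of `E d` is zero, `Ш(E d)[2] = 0`, and `Ш(W d)` contains `(ℤ / 2) ^ k` -/
def SmallLarge (d : ℤ) (k : ℕ) : Prop := rk (E d) = 0 ∧ Nat.card (ShaTor (E d) 2) = 1 ∧
  ∃ n : ℕ, k ≤ n ∧ ∃ φ : (Fin n → ZMod 2) →+ Sha (W d), Function.Injective φ

/-- `C (m + 1) N ^ (-1 / 40)` -/
noncomputable def err (C : ℝ) (m N : ℕ) : ℝ := C * ((m : ℝ) + 1) * (N : ℝ) ^ (-(1 / 40) : ℝ)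

/-- `Q` is a set of primes congruent to 3 modulo 8, at most `y`, with `|Q| ≥ y ^ (19 / 20)` -/
def IsThin (y : ℕ) (Q : Finset ℕ) : Prop :=
  (∀ q ∈ Q, q.Prime ∧ q % 8 = 3 ∧ q ≤ y) ∧ (y : ℝ) ^ (19 / 20 : ℝ) ≤ Q.card

/-- the property used in the proof -/
def Aux (T : Finset ℕ) : Prop := T.Nonempty → (∀ q ∈ T, q.Prime ∧ q % 8 = 3) →
  SmallLarge (prd T) (2 * ((T.card - 1) / 2))

open Classical in
/-- **Theorem.** There are `C ≥ 1` and `D` such that for all `m ≥ 1` and `y` and all sets `Q` of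
primes congruent to 3 modulo 8, at most `y`, with `|Q| ≥ y ^ (19 / 20)` and
`|Q| ≥ C (m + 1) ^ D`, for at least `(5 / 9 - C (m + 1) |Q| ^ (-1 / 40)) binom(|Q|, m)` of the
subsets `T` of `Q` with `m` elements, with `d` the product of the elements of `T`, the curve
`E_d : y² = x³ - d² x` has rank `0` and `Ш(E_d)[2] = 0`, and the Tate-Shafarevich group of the
2-isogenous curve `W_d : y² = x³ + 4 d² x` contains `(ℤ / 2) ^ (2 ⌊(m - 1) / 2⌋)`. -/
theorem result : ∃ (C : ℝ) (D : ℕ), 1 ≤ C ∧ ∀ (m y : ℕ) (Q : Finset ℕ), 1 ≤ m → IsThin y Q →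
      C * ((m : ℝ) + 1) ^ D ≤ Q.card →
      (5 / 9 - err C m Q.card) * (Q.card.choose m : ℝ) ≤
        ((Q.powersetCard m).filter (fun T => SmallLarge (prd T) (2 * ((m - 1) / 2)))).card := by
  obtain ⟨C, k, hC, h⟩ := Pool.Agent.TH715.CN.majority
  refine ⟨C, k, hC, ?_⟩
  intro m y Q hm hQ hmQ
  have hE : ∀ T : Finset ℕ, E (prd T) = Pool.Agent.TH715.CN.ET T := by
    intro T
    unfold E prd Pool.Agent.TH715.CN.ET Pool.Agent.W307.RT.Sh
    congr 1
    push_cast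
    rfl
  have hW : ∀ T : Finset ℕ, W (prd T) =
      Pool.Agent.TH715.CN.LS.WI (∏ q ∈ T, (q : ℤ)) (-(∏ q ∈ T, (q : ℤ))) := by
    intro T
    unfold W prd Pool.Agent.TH715.CN.LS.WI
    congr 1
    · push_cast
      ring
    · push_cast
      ring
  have hS : ∀ W : WeierstrassCurve ℚ, Nat.card (ShaTor W 2) =
      Nat.card {x : Pool.Agent.W262.SH.Sha W // x + x = 0} := by
    intro W
    refine Nat.card_congr ?_
    unfold ShaTor
    refine (Pool.Agent.TH841.SH.D.eSha W).toEquiv.subtypeEquiv fun x => ?_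
    rw [two_nsmul]
    constructor
    · intro hx
      have h5 := congrArg (Pool.Agent.TH841.SH.D.eSha W) hx
      rw [map_add, map_zero] at h5
      exact h5
    · intro hx
      apply (Pool.Agent.TH841.SH.D.eSha W).injective
      rw [map_add, map_zero]
      exact hx
  have h1 := h Aux (fun j x hx hp h8 hcard hne hT => by
      obtain ⟨h2, h3⟩ := Pool.Agent.TH715.CN.sel_four hx hp h8 hcard
      have e : ((∏ q ∈ univ.image x, q : ℕ) : ℤ) = ∏ q ∈ univ.image x, (q : ℤ) := by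
        push_cast
        rfl
      rw [e] at h2 h3
      have hss : Pool.Agent.TH841.SH.SelG 0 (∏ q ∈ univ.image x, (q : ℤ))
          (-(∏ q ∈ univ.image x, (q : ℤ))) ⊆ Pool.Agent.W307.SE.Sel
          (∏ q ∈ univ.image x, (q : ℤ)) (-(∏ q ∈ univ.image x, (q : ℤ))) := by
        have hsub : ∀ (K : Type) [Field K] (D d1 d2 : ℤ),
            Pool.Agent.TH841.SH.LocC K 0 D (-D) d1 d2 →
            Pool.Agent.W307.SE.Loc K D (-D) d1 d2 := by
          rintro K _ D d1 d2 ⟨x, y, hy, hxy, hs1, hs2⟩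
          rw [Int.cast_zero, sub_zero] at hxy hs1
          exact ⟨x, y, hy, hxy, hs1, hs2⟩
        rintro d ⟨a1, a2, a3, a4⟩
        exact ⟨a1, a2, hsub ℝ _ _ _ a3, fun p _ => hsub ℚ_[p] _ _ _ (a4 p)⟩
      have h4 := Pool.Agent.TH715.CN.LS.large_sha hT hne (h2.subset hss)
        ((Set.ncard_le_ncard hss h2).trans h3)
      have h5 := Pool.Agent.TH715.CN.good_of hx hp h8 hcard
      unfold Pool.Agent.TH715.CN.Good at h5
      unfold SmallLarge
      rw [hW]
      refine ⟨?_, ?_, h4⟩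
      · unfold rk
        rw [hE]
        exact h5.1
      · rw [hE, hS, Nat.card_eq_one_iff_unique]
        refine ⟨⟨fun a b => ?_⟩, ⟨⟨0, add_zero 0⟩⟩⟩
        apply Subtype.ext
        rw [h5.2 a.1 a.2, h5.2 b.1 b.2]) m y Q hQ.1 hQ.2 hmQ
  refine h1.trans (Nat.cast_le.2 (card_le_card fun T hT => ?_))
  rw [mem_filter] at hT ⊢
  refine ⟨hT.1, ?_⟩
  have hTm := mem_powersetCard.1 hT.1
  have h5 := hT.2 (by rw [← card_pos, hTm.2]; omega) fun q hq =>
    ⟨(hQ.1 q (hTm.1 hq)).1, (hQ.1 q (hTm.1 hq)).2.1⟩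
  rw [hTm.2] at h5
  exact h5

end Pool.Agent.Results.MP_a3f657_nt.LargeShaThinTwists
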