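import Mathlib
import Pool.Agent.TH779.BS.LocC
import Pool.Agent.TH779.BS.Tail

/-!
# Selmer groups of twists near the almost prime values of polynomials, in all windows

Let `f_1, ..., f_k` be a system of polynomials with integer coefficients (irreducible, different,
none of them a translate of itself or of another one, without a fixed prime divisor), `θ > 0` and
`ε > 0`. Let `V` be the sieve density of the `m` such that all prime factors of all `f_i(m)` are
larger than `X ^ (1 / r)`, `r` large. For elliptic curves `E_i` with three rational points of order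
two, arbitrary nonzero polynomials `D_i`, every `b` and every exponent `s` there is a constant `C`
such that in EVERY interval `(X, X + Y]` with `X` large and `X ^ θ ≤ Y ≤ X`, for all but at most
`ε Y` of the integers `n` of the interval, ALL windows `(u, v]` around `n` inside it, down to the
length `K / V` (a constant multiple of the mean gap), have the following properties: they contain
`(1 ± ε) (v - u) V` such `m`, and for every `R > 0` at most `C R ^ (-s) (v - u) V` of them are such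
that one of the quadratic twists of the `E_i` by `D_i(t)`, `|t - m| ≤ b`, has rank and 2-primary
Tate-Shafarevich group not bounded by `R`.
-/

set_option autoImplicit false

namespace Pool.Agent.Results.MP_a3f657_nt.TailsInAllWindows

open Finset Polynomial Filter

open Pool.Agent.TH841.SH.D (Sha ShaTor HasDiv rk)

/-- the quadratic twist `y² = x³ + d² A x + d³ B` of `y² = x³ + A x + B` over `ℚ` by `d` -/
def Tw (A B d : ℤ) : WeierstrassCurve ℚ := ⟨0, 0, 0, ((d ^ 2 * A : ℤ) : ℚ), ((d ^ 3 * B : ℤ) : ℚ)⟩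

/-- all `Ш[2 ^ k]` are finite, `2 ^ rank * #Ш[2 ^ k] ^ (1 / k) ≤ R` for all `k ≥ 1`, and
`2 ^ (rank + q) ≤ R` if `Ш` has a subgroup `(ℚ₂ / ℤ₂) ^ q` -/
def Bounded (R : ℝ) (W : WeierstrassCurve ℚ) : Prop :=
  (∀ k : ℕ, Finite (ShaTor W (2 ^ k))) ∧
  (∀ k : ℕ, 1 ≤ k →
    (2 : ℝ) ^ rk W * (Nat.card (ShaTor W (2 ^ k)) : ℝ) ^ ((1 : ℝ) / k) ≤ R) ∧
  ∀ q : ℕ, HasDiv W q → (2 : ℝ) ^ (rk W + q) ≤ R

/-- a system of polynomials: irreducible, nonconstant, with positive leading coefficients,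
different, none of them a translate of itself or of another one, without a fixed prime divisor -/
structure System {k : ℕ} (f : Fin k → ℤ[X]) : Prop where
  irreducible : ∀ i, Irreducible (f i)
  nonconstant : ∀ i, 0 < (f i).natDegree
  leading : ∀ i, 0 < (f i).leadingCoeff
  injective : Function.Injective f
  no_translate : ∀ (i j : Fin k) (t : ℕ), 1 ≤ t → f i ≠ (f j).comp (X + C (t : ℤ))
  no_fixed_divisor : ∀ p : ℕ, p.Prime → ∃ m : ℕ, ∀ i, ¬ (p : ℤ) ∣ (f i).eval (m : ℤ)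

/-- no prime `p ≤ z` divides one of the `f_i(m)` -/
def Rough {k : ℕ} (f : Fin k → ℤ[X]) (z : ℝ) (m : ℕ) : Prop :=
  ∀ p : ℕ, p.Prime → (p : ℝ) ≤ z → ∀ i, ¬ (p : ℤ) ∣ (f i).eval (m : ℤ)

open Classical in
/-- the sieve density: the product over the primes `p ≤ z` of `1 - ρ(p) / p`, where `ρ(p)` is the
number of the `m` modulo `p` for which `p` divides one of the `f_i(m)` -/
noncomputable def V {k : ℕ} (f : Fin k → ℤ[X]) (z : ℝ) : ℝ :=
  ∏ p ∈ (range (⌊z⌋₊ + 1)).filter Nat.Prime,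
    (1 - (((range p).filter (fun m : ℕ => ∃ i, (p : ℤ) ∣ (f i).eval (m : ℤ))).card : ℝ) / p)

open Classical in
/-- **Theorem.** For every system `f_1, ..., f_k` (`k ≥ 1`) and all `θ, ε > 0` there are `K > 0` and
`r₀` such that for every `r ≥ r₀`, all elliptic curves
`y² = x³ + A_i x + B_i = (x - e₁_i) (x - e₂_i) (x - e₃_i)` with integers `e₁_i`, `e₂_i`, `e₃_i`, all
nonzero polynomials `D_i` with integer coefficients (`i < g`) and all `b`, `s` there is `C` such that
for all large `N` and all `Y` with `N ^ θ ≤ Y ≤ N` all but at most `ε Y` integers `n` of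
`(N, N + Y]` have the following property: for all windows `(u, v]` with `N ≤ u < n ≤ v ≤ N + Y` and
`(v - u) V ≥ K`, where `V = V(f, N ^ (1 / r))`,
* the number of the `m` of the window for which no `f_i(m)` has a prime factor `≤ N ^ (1 / r)` is
  `(1 ± ε) (v - u) V`;
* for every `R > 0` the number of those of these `m` for which not all twists of the `i`-th curve by
  `D_i(t)`, `i < g`, `|t - m| ≤ b`, are bounded by `R`, is at most `C R ^ (-s) (v - u) V`. -/
theorem result {k : ℕ} (hk : 1 ≤ k) (f : Fin k → ℤ[X]) (hf : System f) (θ ε : ℝ) (hθ : 0 < θ)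
    (hε : 0 < ε) :
    ∃ (K : ℝ) (r₀ : ℕ), 0 < K ∧ ∀ r : ℕ, r₀ ≤ r → ∀ (g : ℕ) (A B e₁ e₂ e₃ : Fin g → ℤ),
      (∀ i, 4 * A i ^ 3 + 27 * B i ^ 2 ≠ 0) →
      (∀ i, ∀ x : ℤ, x ^ 3 + A i * x + B i = (x - e₁ i) * (x - e₂ i) * (x - e₃ i)) →
      ∀ D : Fin g → ℤ[X], (∀ i, D i ≠ 0) → ∀ b s : ℕ,
      ∃ C : ℝ, ∀ᶠ N : ℕ in atTop, ∀ Y : ℕ, (N : ℝ) ^ θ ≤ Y → Y ≤ N →
        (((Ioc N (N + Y)).filter (fun n => ¬ ∀ u v : ℕ, N ≤ u → u < n → n ≤ v → v ≤ N + Y →
          K ≤ ((v : ℝ) - u) * V f ((N : ℝ) ^ (1 / (r : ℝ))) →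
          |(((Ioc u v).filter (fun m : ℕ => Rough f ((N : ℝ) ^ (1 / (r : ℝ))) m)).card : ℝ) -
              (v - u) * V f ((N : ℝ) ^ (1 / (r : ℝ)))| ≤
            ε * ((v - u) * V f ((N : ℝ) ^ (1 / (r : ℝ)))) ∧
          ∀ R : ℝ, 0 < R →
            (((Ioc u v).filter (fun m : ℕ => Rough f ((N : ℝ) ^ (1 / (r : ℝ))) m ∧
              ¬ ∀ t : ℤ, |t - m| ≤ b → ∀ i, (D i).eval t ≠ 0 ∧
                Bounded R (Tw (A i) (B i) ((D i).eval t)))).card : ℝ) ≤
            C / R ^ s * ((v - u) * V f ((N : ℝ) ^ (1 / (r : ℝ)))))).card : ℝ) ≤ ε * Y := by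
  have hf' : Pool.Agent.W123.RU.Poly.Sys f :=
    ⟨hf.irreducible, hf.nonconstant, hf.leading, hf.injective, hf.no_fixed_divisor⟩
  obtain ⟨K, r₀, hK, _, h⟩ := Pool.Agent.TH779.BS.tails hk f hf' hf.no_translate θ hθ ε hε
  refine ⟨K, r₀, hK, fun r hr g A B e₁ e₂ e₃ hE he D hD b s => ?_⟩
  obtain ⟨C, hC0, hC⟩ := h r hr A B e₁ e₂ e₃ hE he D hD b s
  refine ⟨C, ?_⟩
  filter_upwards [hC] with N hN
  intro Y hNY hYN
  refine le_trans ?_ (hN Y hNY hYN)
  have hV : V f ((N : ℝ) ^ (1 / (r : ℝ))) = Pool.Agent.W123.RP.Vq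
      (Pool.Agent.W123.RU.Poly.Q f) (Pool.Agent.TH779.BS.lev N r) :=
    (Pool.Agent.TH779.BS.vq_eq f N r).symm
  have hS : ∀ m : ℕ, Rough f ((N : ℝ) ^ (1 / (r : ℝ))) m ↔ Pool.Agent.TH464.PO.Sf
      (Pool.Agent.W123.RU.Poly.Q f) (Pool.Agent.TH779.BS.lev N r) m := fun m =>
    (Pool.Agent.TH779.BS.sf_iff f N r m).symm
  refine Nat.cast_le.2 (card_le_card ?_)
  intro n hn
  rw [mem_filter] at hn ⊢
  refine ⟨hn.1, fun hall => hn.2 fun u v hu hun hnv hv hKV => ?_⟩
  rw [hV] at hKV ⊢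
  obtain ⟨h1, h2⟩ := hall u v hu hun hnv hv hKV
  simp only [hS]
  refine ⟨h1, fun R hR => ?_⟩
  have h3 := h2 R hR.le
  rw [div_mul_eq_mul_div, le_div_iff₀ (by positivity)]
  rw [mul_comm] at h3
  refine le_trans (mul_le_mul_of_nonneg_right (Nat.cast_le.2 (card_le_card ?_)) (by positivity)) h3
  intro m hm
  rw [mem_filter] at hm ⊢
  refine ⟨hm.1, hm.2.1, fun hb => hm.2.2 fun t ht i => ?_⟩
  obtain ⟨h4, h5⟩ := hb t ht i
  exact ⟨h4, fun k => h5.fin k, fun _ hk => h5.wt_le hk, fun _ hq => h5.div_le le_rfl hq⟩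

end Pool.Agent.Results.MP_a3f657_nt.TailsInAllWindows
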